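import Mathlib

set_option autoImplicit false

open MeasureTheory Set
open scoped BigOperators Pointwise

noncomputable section

namespace Pool.Agent.T9h87.Zono

abbrev E (d : ℕ) : Type := EuclideanSpace ℝ (Fin d)

variable {d : ℕ}

/-- matrix with first row `1` and columns `(1, x c)` -/
def A (x : Fin (d + 1) → E d) : Matrix (Fin (d + 1)) (Fin (d + 1)) ℝ :=
  Matrix.of fun r c => Fin.cases (motive := fun _ => ℝ) 1 (fun r' => x c r') r

theorem A_zero (x : Fin (d + 1) → E d) (c : Fin (d + 1)) : A x 0 c = 1 := rfl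

theorem A_succ (x : Fin (d + 1) → E d) (r : Fin d) (c : Fin (d + 1)) : A x r.succ c = x c r := rfl

theorem A_mulVec (x : Fin (d + 1) → E d) (a : Fin (d + 1) → ℝ) (hs : ∑ i, a i = 1)
    (h0 : ∑ i, a i • x i = 0) : (A x).mulVec a = Pi.single 0 1 := by
  ext r
  refine Fin.cases ?_ (fun r' => ?_) r
  · simp [Matrix.mulVec, dotProduct, A_zero, hs]
  · have h := congrArg (fun v : E d => v r') h0
    simp only [Matrix.mulVec, dotProduct, A_succ]
    have h2 : (∑ i, a i • x i) r' = ∑ i, x i r' * a i := by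
      simp [mul_comm]
    have h3 : (Pi.single (0 : Fin (d + 1)) (1 : ℝ) : Fin (d + 1) → ℝ) r'.succ = 0 := by
      simp
    rw [h3, ← h2, h0]
    rfl

theorem det_minor (x : Fin (d + 1) → E d) (a : Fin (d + 1) → ℝ) (hs : ∑ i, a i = 1)
    (h0 : ∑ i, a i • x i = 0) (j : Fin (d + 1)) :
    (-1 : ℝ) ^ (j : ℕ) * ((A x).submatrix Fin.succ j.succAbove).det = a j * (A x).det := by
  have h1 : (A x).adjugate.mulVec ((A x).mulVec a) = (A x).det • a := by
    rw [Matrix.mulVec_mulVec, Matrix.adjugate_mul, Matrix.smul_mulVec, Matrix.one_mulVec]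
  rw [A_mulVec x a hs h0] at h1
  have h2 := congrFun h1 j
  rw [Matrix.mulVec_single_one] at h2
  simp only [Matrix.col_apply, Pi.smul_apply, smul_eq_mul] at h2
  rw [Matrix.adjugate_fin_succ_eq_det_submatrix] at h2
  rw [mul_comm (a j)]
  rw [← h2]
  simp [Fin.succAbove_zero]

end Pool.Agent.T9h87.Zono
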