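import Pool.Agent.T9h87.Zono1

set_option autoImplicit false

open MeasureTheory Set
open scoped BigOperators Pointwise

noncomputable section

namespace Pool.Agent.T9h87.Zono

variable {d : ℕ}

/-- the parallelepiped spanned by all the vectors but the `j`-th one -/
def PP (x : Fin (d + 1) → E d) (j : Fin (d + 1)) : Set (E d) :=
  parallelepiped (fun k : Fin d => x (j.succAbove k))

theorem mem_PP_iff (x : Fin (d + 1) → E d) (j : Fin (d + 1)) (z : E d) :
    z ∈ PP x j ↔ ∃ t : Fin (d + 1) → ℝ, (∀ i, 0 ≤ t i ∧ t i ≤ 1) ∧ t j = 0 ∧ z = ∑ i, t i • x i := by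
  unfold PP
  rw [mem_parallelepiped_iff]
  constructor
  · rintro ⟨t, ht, rfl⟩
    refine ⟨j.insertNth (0 : ℝ) t, ?_, by simp, ?_⟩
    · intro i
      refine j.succAboveCases ?_ (fun k => ?_) i
      · simp
      · simp only [Fin.insertNth_apply_succAbove]
        exact ⟨ht.1 k, ht.2 k⟩
    · rw [Fin.sum_univ_succAbove _ j]
      simp
  · rintro ⟨t, ht, hj, rfl⟩
    refine ⟨fun k => t (j.succAbove k), ⟨fun k => (ht _).1, fun k => (ht _).2⟩, ?_⟩
    rw [Fin.sum_univ_succAbove _ j, hj, zero_smul, zero_add]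

theorem parallelepiped_eq_iUnion (x : Fin (d + 1) → E d) (a : Fin (d + 1) → ℝ)
    (ha : ∀ i, 0 < a i) (h0 : ∑ i, a i • x i = 0) :
    parallelepiped x = ⋃ j, PP x j := by
  ext z
  rw [mem_parallelepiped_iff, mem_iUnion]
  constructor
  · rintro ⟨t, ht, rfl⟩
    obtain ⟨j, -, hj⟩ := Finset.exists_min_image Finset.univ (fun i => t i / a i) ⟨0, Finset.mem_univ _⟩
    refine ⟨j, (mem_PP_iff _ _ _).2 ⟨fun i => t i - t j / a j * a i, ?_, ?_, ?_⟩⟩
    · intro i
      have h1 : t j / a j ≤ t i / a i := hj i (Finset.mem_univ _)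
      have h2 : t j / a j * a i ≤ t i := by
        have := mul_le_mul_of_nonneg_right h1 (ha i).le
        rwa [div_mul_cancel₀ _ (ha i).ne'] at this
      have h3 : 0 ≤ t j / a j * a i := mul_nonneg (div_nonneg (ht.1 j) (ha j).le) (ha i).le
      have h4 : t i ≤ 1 := ht.2 i
      exact ⟨by linarith, by linarith⟩
    · show t j - t j / a j * a j = 0
      rw [div_mul_cancel₀ _ (ha j).ne', sub_self]
    · simp only [sub_smul, Finset.sum_sub_distrib, mul_smul, ← Finset.smul_sum, h0, smul_zero,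
        sub_zero]
  · rintro ⟨j, hj⟩
    obtain ⟨t, ht, -, rfl⟩ := (mem_PP_iff _ _ _).1 hj
    exact ⟨t, ⟨fun i => (ht i).1, fun i => (ht i).2⟩, rfl⟩

theorem PP_inter_subset (x : Fin (d + 1) → E d) (a : Fin (d + 1) → ℝ)
    (ha : ∀ i, 0 < a i) (hker : ∀ t : Fin (d + 1) → ℝ, ∑ i, t i • x i = 0 → ∃ c : ℝ, ∀ i, t i = c * a i)
    {i j : Fin (d + 1)} :
    PP x i ∩ PP x j ⊆ (Submodule.span ℝ (x '' {k | k ≠ i ∧ k ≠ j}) : Set (E d)) := by
  rintro z ⟨hi, hj⟩
  obtain ⟨t, ht, hti, rfl⟩ := (mem_PP_iff _ _ _).1 hi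
  obtain ⟨s, hs, hsj, hts⟩ := (mem_PP_iff _ _ _).1 hj
  obtain ⟨c, hc⟩ := hker (fun k => t k - s k) (by
    simp only [sub_smul, Finset.sum_sub_distrib]
    rw [hts, sub_self])
  have h1 : t i - s i = c * a i := hc i
  have h2 : t j - s j = c * a j := hc j
  have hc0 : c = 0 := by
    rcases lt_trichotomy c 0 with h | h | h
    · exfalso
      have := mul_neg_of_neg_of_pos h (ha j)
      have := (ht j).1
      rw [hsj] at h2
      linarith
    · exact h
    · exfalso
      have := mul_pos h (ha i)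
      have := (hs i).1
      rw [hti] at h1
      linarith
  have htj : t j = 0 := by
    rw [hc0, zero_mul, hsj, sub_zero] at h2; exact h2
  refine Submodule.sum_mem _ fun k _ => ?_
  by_cases hk : k ≠ i ∧ k ≠ j
  · exact Submodule.smul_mem _ _ (Submodule.subset_span ⟨k, hk, rfl⟩)
  · have : t k = 0 := by
      by_cases hki : k = i
      · rw [hki, hti]
      · have : k = j := by
          by_contra h
          exact hk ⟨hki, h⟩
        rw [this, htj]
    rw [this, zero_smul]
    exact Submodule.zero_mem _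

theorem span_ne_top (x : Fin (d + 1) → E d) {i j : Fin (d + 1)} (hij : i ≠ j) :
    Submodule.span ℝ (x '' {k | k ≠ i ∧ k ≠ j}) ≠ ⊤ := by
  intro h
  have h1 : Module.finrank ℝ (Submodule.span ℝ (x '' {k | k ≠ i ∧ k ≠ j})) ≤ d - 1 := by
    have hcard : ({k | k ≠ i ∧ k ≠ j} : Set (Fin (d + 1))).ncard = d - 1 := by
      have : ({k | k ≠ i ∧ k ≠ j} : Set (Fin (d + 1))) = ((Finset.univ.erase i).erase j : Finset _) := by
        ext k; simp
      rw [this, Set.ncard_coe_finset, Finset.card_erase_of_mem, Finset.card_erase_of_mem (Finset.mem_univ _)]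
      · simp
      · simp [hij.symm]
    have hfin : (x '' {k | k ≠ i ∧ k ≠ j}).Finite := Set.toFinite _
    have := hfin.fintype
    have h2 := finrank_span_le_card (R := ℝ) (x '' {k | k ≠ i ∧ k ≠ j})
    rw [← Set.ncard_eq_toFinset_card'] at h2
    exact h2.trans ((Set.ncard_image_le (Set.toFinite _)).trans hcard.le)
  rw [h, finrank_top, finrank_euclideanSpace, Fintype.card_fin] at h1
  have : 0 < d := by
    rcases Nat.eq_zero_or_pos d with h0 | h0
    · subst h0
      exact absurd (by ext; omega) hij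
    · exact h0
  omega

end Pool.Agent.T9h87.Zono
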