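import Pool.Agent.T9h87.Zono2

set_option autoImplicit false

open MeasureTheory Set
open scoped BigOperators Pointwise

noncomputable section

namespace Pool.Agent.T9h87.Zono

variable {d : ℕ}

theorem volume_PP (x : Fin (d + 1) → E d) (j : Fin (d + 1)) :
    volume (PP x j) = ENNReal.ofReal |((A x).submatrix Fin.succ j.succAbove).det| := by
  unfold PP
  rw [← (EuclideanSpace.basisFun (Fin d) ℝ).addHaar_eq_volume, Measure.addHaar_parallelepiped]
  congr 2

theorem isCompact_PP (x : Fin (d + 1) → E d) (j : Fin (d + 1)) : IsCompact (PP x j) := by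
  unfold PP parallelepiped
  refine isCompact_Icc.image ?_
  fun_prop

theorem ker_of_det_ne_zero (x : Fin (d + 1) → E d) (a : Fin (d + 1) → ℝ)
    (hs : ∑ i, a i = 1) (h0 : ∑ i, a i • x i = 0) (hdet : (A x).det ≠ 0)
    (t : Fin (d + 1) → ℝ) (ht : ∑ i, t i • x i = 0) : ∃ c : ℝ, ∀ i, t i = c * a i := by
  refine ⟨∑ i, t i, ?_⟩
  set c := ∑ i, t i with hc
  have h1 : (A x).mulVec (t - c • a) = 0 := by
    ext r
    refine Fin.cases ?_ (fun r' => ?_) r
    · simp only [Matrix.mulVec, dotProduct, A_zero, one_mul, Pi.sub_apply, Pi.smul_apply,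
        smul_eq_mul, Finset.sum_sub_distrib, ← Finset.mul_sum, hs, mul_one, ← hc, sub_self,
        Pi.zero_apply]
    · simp only [Matrix.mulVec, dotProduct, A_succ, Pi.sub_apply, Pi.smul_apply, smul_eq_mul,
        Pi.zero_apply]
      have e1 : (∑ i, t i • x i) r' = ∑ i, x i r' * t i := by simp [mul_comm]
      have e2 : (∑ i, a i • x i) r' = ∑ i, x i r' * a i := by simp [mul_comm]
      have e3 : ∑ i, x i r' * (t i - c * a i) = ∑ i, x i r' * t i - c * ∑ i, x i r' * a i := by
        rw [Finset.mul_sum, ← Finset.sum_sub_distrib]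
        exact Finset.sum_congr rfl fun i _ => by ring
      rw [e3, ← e1, ← e2, ht, h0]
      simp
  have h2 : t - c • a = 0 := Matrix.eq_zero_of_mulVec_eq_zero hdet h1
  intro i
  have := congrFun h2 i
  simp only [Pi.sub_apply, Pi.smul_apply, smul_eq_mul, Pi.zero_apply] at this
  linarith

/-- the volume of a zonotope spanned by `d + 1` vectors with a positive linear relation -/
theorem volume_parallelepiped_succ (x : Fin (d + 1) → E d) (a : Fin (d + 1) → ℝ)
    (ha : ∀ i, 0 < a i) (hs : ∑ i, a i = 1) (h0 : ∑ i, a i • x i = 0) (hdet : (A x).det ≠ 0) :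
    volume (parallelepiped x) = ENNReal.ofReal |(A x).det| := by
  rw [parallelepiped_eq_iUnion x a ha h0, measure_iUnion₀]
  · rw [tsum_fintype]
    have h1 : ∀ j, volume (PP x j) = ENNReal.ofReal (a j * |(A x).det|) := by
      intro j
      rw [volume_PP]
      congr 1
      have := congrArg abs (det_minor x a hs h0 j)
      rw [abs_mul, abs_mul, abs_pow, abs_neg, abs_one, one_pow, one_mul, abs_of_pos (ha j)] at this
      exact this
    rw [Finset.sum_congr rfl fun j _ => h1 j, ← ENNReal.ofReal_sum_of_nonneg, ← Finset.sum_mul, hs,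
      one_mul]
    intro j _
    exact mul_nonneg (ha j).le (abs_nonneg _)
  · intro i j hij
    show volume (PP x i ∩ PP x j) = 0
    refine measure_mono_null (PP_inter_subset x a ha (ker_of_det_ne_zero x a hs h0 hdet)) ?_
    exact Measure.addHaar_submodule _ _ (span_ne_top x hij)
  · intro j
    exact (isCompact_PP x j).measurableSet.nullMeasurableSet

/-- translation invariance of the determinant -/
theorem det_A_sub (x : Fin (d + 1) → E d) (q : E d) :
    (A fun i => x i - q).det = (A x).det := by
  refine Matrix.det_eq_of_forall_row_eq_smul_add_const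
    (fun r => Fin.cases (motive := fun _ => ℝ) 0 (fun r' => - q r') r) 0 (by simp) ?_
  intro r c
  refine Fin.cases ?_ (fun r' => ?_) r
  · simp [A_zero]
  · simp only [A_succ, A_zero, Fin.cases_succ]
    simp
    ring

theorem det_A_smul (x : Fin (d + 1) → E d) (s : ℝ) :
    (A fun i => s • x i).det = s ^ d * (A x).det := by
  have : A (fun i => s • x i) =
      Matrix.diagonal (fun r => Fin.cases (motive := fun _ => ℝ) 1 (fun _ => s) r) * A x := by
    ext r c
    rw [Matrix.diagonal_mul]
    refine Fin.cases ?_ (fun r' => ?_) r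
    · simp [A_zero]
    · simp [A_succ]
  rw [this, Matrix.det_mul, Matrix.det_diagonal, Fin.prod_univ_succ]
  simp

end Pool.Agent.T9h87.Zono
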