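import Pool.Agent.T9h87.Zono3

set_option autoImplicit false

open MeasureTheory Set
open scoped BigOperators Pointwise RealInnerProductSpace

noncomputable section

namespace Pool.Agent.T9h87.Zono

variable {d : ℕ}

/-! ### a regular simplex -/

/-- `γ = (1/√(d+1) - 1)/d` -/
def gam (d : ℕ) : ℝ := (1 / √(d + 1) - 1) / d

/-- the vertices of a regular simplex with centre `0` -/
def reg (d : ℕ) : Fin (d + 1) → E d :=
  Fin.cases (WithLp.toLp 2 fun _ => - (1 / √(d + 1)))
    (fun k => WithLp.toLp 2 fun r => (if r = k then 1 else 0) + gam d)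

theorem reg_zero (r : Fin d) : reg d 0 r = - (1 / √(d + 1)) := rfl
theorem reg_succ (k r : Fin d) : reg d k.succ r = (if r = k then 1 else 0) + gam d := rfl

theorem gam_eq (hd : 0 < d) : 1 + d * gam d = 1 / √(d + 1) := by
  unfold gam
  have : (d : ℝ) ≠ 0 := by positivity
  field_simp
  ring

theorem sq_inv_sqrt : (1 / √((d : ℝ) + 1)) ^ 2 = 1 / (d + 1) := by
  rw [div_pow, one_pow, Real.sq_sqrt (by positivity)]

theorem inner_E (x y : E d) : ⟪x, y⟫ = ∑ r, x r * y r := by
  rw [PiLp.inner_apply]
  exact Finset.sum_congr rfl fun r _ => by simp [mul_comm]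

theorem inner_reg (hd : 0 < d) (i j : Fin (d + 1)) :
    ⟪reg d i, reg d j⟫ = (if i = j then 1 else 0) - 1 / ((d : ℝ) + 1) := by
  have hd' : (d : ℝ) ≠ 0 := by positivity
  have hg := gam_eq hd
  have hsq := sq_inv_sqrt (d := d)
  have hd1 : (1 : ℝ) - 1 / (d + 1) = d * (1 / (d + 1)) := by field_simp; ring
  rw [inner_E]
  refine Fin.cases ?_ (fun k => ?_) i
  · refine Fin.cases ?_ (fun l => ?_) j
    · simp only [reg_zero, Finset.sum_const, Finset.card_univ, Fintype.card_fin, nsmul_eq_mul,
        if_true]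
      rw [hd1]
      linear_combination (d : ℝ) * hsq
    · simp only [reg_zero, reg_succ]
      rw [if_neg (Fin.succ_ne_zero l).symm, ← Finset.mul_sum, Finset.sum_add_distrib]
      simp only [Finset.sum_ite_eq', Finset.mem_univ, if_true, Finset.sum_const, Finset.card_univ,
        Fintype.card_fin, nsmul_eq_mul]
      rw [hg]
      linear_combination - hsq
  · refine Fin.cases ?_ (fun l => ?_) j
    · simp only [reg_zero, reg_succ]
      rw [if_neg (Fin.succ_ne_zero k), ← Finset.sum_mul, Finset.sum_add_distrib]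
      simp only [Finset.sum_ite_eq', Finset.mem_univ, if_true, Finset.sum_const, Finset.card_univ,
        Fintype.card_fin, nsmul_eq_mul]
      rw [hg]
      linear_combination - hsq
    · simp only [reg_succ]
      have h1 : ∀ r : Fin d, ((if r = k then (1 : ℝ) else 0) + gam d) * ((if r = l then 1 else 0) + gam d)
          = (if r = k then (if r = l then (1 : ℝ) else 0) else 0) + gam d * (if r = k then (1 : ℝ) else 0)
            + gam d * (if r = l then (1 : ℝ) else 0) + gam d ^ 2 := by
        intro r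
        split_ifs <;> ring
      rw [Finset.sum_congr rfl fun r _ => h1 r]
      simp only [Finset.sum_add_distrib, ← Finset.mul_sum, Finset.sum_ite_eq', Finset.mem_univ,
        if_true, Finset.sum_const, Finset.card_univ, Fintype.card_fin, nsmul_eq_mul]
      have h2 : (d : ℝ) * (2 * gam d + d * gam d ^ 2) = d * (- (1 / (d + 1))) := by
        have : (1 + d * gam d) ^ 2 = 1 / (d + 1) := by rw [hg]; exact hsq
        linear_combination this - hd1
      have h3 := mul_left_cancel₀ hd' h2
      simp only [Fin.succ_inj]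
      linear_combination h3

/-- the square of the norm of a linear combination -/
theorem norm_sq_comb (hd : 0 < d) (c : Fin (d + 1) → ℝ) :
    ‖∑ i, c i • reg d i‖ ^ 2 = ∑ i, c i ^ 2 - (∑ i, c i) ^ 2 / (d + 1) := by
  rw [← real_inner_self_eq_norm_sq, sum_inner]
  simp only [inner_sum, inner_smul_left, inner_smul_right, inner_reg hd, conj_trivial]
  have h1 : ∀ i, ∑ j, c j * (c i * ((if i = j then (1 : ℝ) else 0) - 1 / ((d : ℝ) + 1)))
      = c i ^ 2 - c i * (∑ j, c j) / (d + 1) := by
    intro i
    have : ∀ j, c j * (c i * ((if i = j then (1 : ℝ) else 0) - 1 / ((d : ℝ) + 1)))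
        = (if i = j then c i * c j else 0) - c i * c j / (d + 1) := by
      intro j
      split_ifs <;> ring
    rw [Finset.sum_congr rfl fun j _ => this j, Finset.sum_sub_distrib, Finset.sum_ite_eq,
      if_pos (Finset.mem_univ _), ← Finset.sum_div, ← Finset.mul_sum]
    ring
  rw [Finset.sum_congr rfl fun i _ => h1 i, Finset.sum_sub_distrib, ← Finset.sum_div,
    ← Finset.sum_mul]
  ring

theorem sum_reg (hd : 0 < d) : ∑ i, reg d i = 0 := by
  have h := norm_sq_comb hd (fun _ => 1)
  simp only [one_smul, one_pow, Finset.sum_const, Finset.card_univ, Fintype.card_fin,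
    nsmul_eq_mul, mul_one] at h
  have h2 : ‖∑ i, reg d i‖ ^ 2 = 0 := by
    rw [h]; push_cast; field_simp; ring
  exact norm_eq_zero.1 (pow_eq_zero_iff (two_ne_zero)|>.1 h2)

theorem det_A_reg (hd : 0 < d) : (A (reg d)).det ≠ 0 := by
  intro h
  obtain ⟨t, ht0, ht⟩ := Matrix.exists_mulVec_eq_zero_iff.2 h
  apply ht0
  have h1 : ∑ i, t i = 0 := by
    have := congrFun ht 0
    simpa [Matrix.mulVec, dotProduct, A_zero] using this
  have h2 : ∑ i, t i • reg d i = 0 := by
    ext r
    have := congrFun ht r.succ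
    simp only [Matrix.mulVec, dotProduct, A_succ, Pi.zero_apply] at this
    have e1 : (∑ i, t i • reg d i) r = ∑ i, reg d i r * t i := by simp [mul_comm]
    rw [e1, this]
    rfl
  have h3 := norm_sq_comb hd t
  rw [h2, h1, norm_zero] at h3
  have h4 : ∑ i, t i ^ 2 = 0 := by
    have : ((0 : ℝ)) ^ 2 = ∑ i, t i ^ 2 - 0 ^ 2 / (d + 1) := h3
    simpa using this.symm
  rw [Finset.sum_eq_zero_iff_of_nonneg fun i _ => sq_nonneg _] at h4
  ext i
  exact pow_eq_zero_iff two_ne_zero |>.1 (h4 i (Finset.mem_univ i))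

end Pool.Agent.T9h87.Zono
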