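import Pool.Agent.T9h87.Zono4

set_option autoImplicit false

open MeasureTheory Set
open scoped BigOperators Pointwise RealInnerProductSpace

noncomputable section

namespace Pool.Agent.T9h87.Zono

variable {d : ℕ}

/-- the vectors from the point `τ p₀` to the vertices of the simplex, times `s` -/
def fam (d : ℕ) (τ s : ℝ) (i : Fin (d + 1)) : E d := s • (reg d i - τ • reg d 0)

/-- barycentric coordinates of the point `τ p₀` -/
def bary (d : ℕ) (τ : ℝ) (i : Fin (d + 1)) : ℝ := (1 - τ) / (d + 1) + if i = 0 then τ else 0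

theorem bary_pos {τ : ℝ} (h0 : 0 ≤ τ) (h1 : τ < 1) (i : Fin (d + 1)) : 0 < bary d τ i := by
  unfold bary
  have : 0 < (1 - τ) / (d + 1) := div_pos (by linarith) (by positivity)
  split_ifs <;> linarith

theorem bary_sum (τ : ℝ) : ∑ i, bary d τ i = 1 := by
  unfold bary
  rw [Finset.sum_add_distrib]
  simp only [Finset.sum_const, Finset.card_univ, Fintype.card_fin, nsmul_eq_mul,
    Finset.sum_ite_eq', Finset.mem_univ, if_true]
  push_cast
  field_simp
  ring

theorem bary_rel (hd : 0 < d) (τ s : ℝ) : ∑ i, bary d τ i • fam d τ s i = 0 := by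
  have h1 : ∑ i, bary d τ i • reg d i = τ • reg d 0 := by
    unfold bary
    simp only [add_smul, Finset.sum_add_distrib, ← Finset.smul_sum, sum_reg hd, smul_zero, zero_add,
      ite_smul, zero_smul, Finset.sum_ite_eq', Finset.mem_univ, if_true]
  unfold fam
  simp only [smul_comm _ s, ← Finset.smul_sum, smul_sub, Finset.sum_sub_distrib, h1,
    ← Finset.sum_smul, bary_sum, one_smul, sub_self, smul_zero]

theorem volume_fam (hd : 0 < d) {τ s : ℝ} (h0 : 0 ≤ τ) (h1 : τ < 1) (hs : 0 < s) :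
    volume (parallelepiped (fam d τ s)) = ENNReal.ofReal (s ^ d * |(A (reg d)).det|) := by
  have hdet : (A (fam d τ s)).det = s ^ d * (A (reg d)).det := by
    have : fam d τ s = fun i => s • (fun i => reg d i - τ • reg d 0) i := rfl
    rw [this, det_A_smul, det_A_sub]
  rw [volume_parallelepiped_succ (fam d τ s) (bary d τ) (bary_pos h0 h1) (bary_sum τ)
    (bary_rel hd τ s), hdet, abs_mul, abs_of_pos (pow_pos hs d)]
  rw [hdet]
  exact mul_ne_zero (pow_ne_zero _ hs.ne') (det_A_reg hd)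

/-! ### signed sums -/

/-- the norm of a signed sum -/
theorem norm_sq_signed (hd : 0 < d) (τ s : ℝ) (ε : Fin (d + 1) → ℝ) (hε : ∀ i, ε i ^ 2 = 1) :
    ‖∑ i, ε i • fam d τ s i‖ ^ 2 = s ^ 2 * ((d + 1) - 2 * ε 0 * (∑ i, ε i) * τ
      + (∑ i, ε i) ^ 2 * τ ^ 2 - (∑ i, ε i) ^ 2 * (1 - τ) ^ 2 / (d + 1)) := by
  set σ := ∑ i, ε i with hσ
  have h1 : ∑ i, ε i • fam d τ s i = s • ∑ i, (ε i - if i = 0 then σ * τ else 0) • reg d i := by
    have a1 : ∑ i, (ε i - if i = 0 then σ * τ else 0) • reg d i =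
        ∑ i, ε i • reg d i - (σ * τ) • reg d 0 := by
      simp only [sub_smul, Finset.sum_sub_distrib, ite_smul, zero_smul, Finset.sum_ite_eq',
        Finset.mem_univ, if_true]
    have a2 : ∑ i, ε i • (τ • reg d 0) = (σ * τ) • reg d 0 := by
      rw [← Finset.sum_smul, smul_smul]
    rw [a1, ← a2, ← Finset.sum_sub_distrib, Finset.smul_sum]
    refine Finset.sum_congr rfl fun i _ => ?_
    unfold fam
    rw [← smul_sub, smul_comm]
  rw [h1, norm_smul, mul_pow, norm_sq_comb hd, Real.norm_eq_abs, sq_abs]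
  congr 1
  have h2 : ∑ i, (ε i - if i = 0 then σ * τ else 0) = σ - σ * τ := by
    rw [Finset.sum_sub_distrib, ← hσ]
    simp
  have h3 : ∑ i, (ε i - if i = 0 then σ * τ else 0) ^ 2 = (d + 1) - 2 * ε 0 * σ * τ + σ ^ 2 * τ ^ 2 := by
    have : ∀ i, (ε i - if i = 0 then σ * τ else 0) ^ 2 =
        1 + if i = 0 then (- 2 * ε i * σ * τ + σ ^ 2 * τ ^ 2) else 0 := by
      intro i
      split_ifs
      · linear_combination hε i
      · linear_combination hε i
    rw [Finset.sum_congr rfl fun i _ => this i, Finset.sum_add_distrib]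
    simp only [Finset.sum_const, Finset.card_univ, Fintype.card_fin, nsmul_eq_mul, mul_one,
      Finset.sum_ite_eq', Finset.mem_univ, if_true]
    push_cast
    ring
  rw [h2, h3]
  ring

/-- a sum of signs is an even integer for an even number of signs -/
theorem even_signed (hodd : Odd d) (S : Finset (Fin (d + 1))) :
    ∃ m : ℤ, ∑ i, (if i ∈ S then (1 : ℝ) else -1) = 2 * m := by
  obtain ⟨k, hk⟩ := hodd
  refine ⟨S.card - (k + 1), ?_⟩
  have h1 : ∀ i : Fin (d + 1), (if i ∈ S then (1 : ℝ) else -1) = 2 * (if i ∈ S then 1 else 0) - 1 := by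
    intro i; split_ifs <;> ring
  rw [Finset.sum_congr rfl fun i _ => h1 i, Finset.sum_sub_distrib, ← Finset.mul_sum]
  simp only [Finset.sum_ite_mem, Finset.univ_inter, Finset.sum_const, Finset.card_univ,
    Fintype.card_fin, nsmul_eq_mul, mul_one]
  have hkR : (d : ℝ) = 2 * k + 1 := by exact_mod_cast hk
  push_cast
  rw [hkR]
  ring

theorem norm_signed_le (hd : 3 ≤ d) (hodd : Odd d) {τ s : ℝ} (h0 : 0 ≤ τ) (h1 : τ ≤ 1 / (4 * (d + 1)))
    (hs : 0 < s) (S : Finset (Fin (d + 1))) :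
    ‖∑ i, (if i ∈ S then (1 : ℝ) else -1) • fam d τ s i‖ ≤ s * √(d + 1) := by
  have hd0 : 0 < d := by omega
  have hdR : (3 : ℝ) ≤ d := by exact_mod_cast hd
  refine abs_le_of_sq_le_sq' ?_ (by positivity) |>.2
  rw [norm_sq_signed hd0 _ _ _ (fun i => by split_ifs <;> norm_num), mul_pow,
    Real.sq_sqrt (by positivity)]
  refine mul_le_mul_of_nonneg_left ?_ (sq_nonneg s)
  obtain ⟨m, hm⟩ := even_signed hodd S
  set σ := ∑ i, (if i ∈ S then (1 : ℝ) else -1) with hσ
  set e : ℝ := (if (0 : Fin (d + 1)) ∈ S then (1 : ℝ) else -1) with he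
  have hσ2 : 2 * |σ| ≤ σ ^ 2 := by
    rw [hm]
    rcases eq_or_ne m 0 with h | h
    · simp [h]
    · have h2 : (1 : ℝ) ≤ |(m : ℝ)| := by
        exact_mod_cast Int.one_le_abs h
      rw [← sq_abs, abs_mul, abs_of_pos (by norm_num : (0 : ℝ) < 2)]
      nlinarith
  have he1 : - 2 * e * σ * τ ≤ 2 * |σ| * τ := by
    have : - e * σ ≤ |σ| := by
      rw [he]
      split_ifs
      · have := neg_le_abs σ; linarith
      · have := le_abs_self σ; linarith
    nlinarith
  have hn : (0 : ℝ) < d + 1 := by positivity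
  have hkey : τ ^ 2 + τ ≤ (1 - τ) ^ 2 / (d + 1) := by
    rw [le_div_iff₀ hn]
    have h4 : τ * (d + 1) ≤ 1 / 4 := by
      have := mul_le_mul_of_nonneg_right h1 hn.le
      have e : 1 / (4 * ((d : ℝ) + 1)) * (d + 1) = 1 / 4 := by field_simp
      linarith
    have h5 : τ ≤ 1 / 16 := by nlinarith
    nlinarith
  have h6 := mul_le_mul_of_nonneg_left hkey (sq_nonneg σ)
  have h7 : σ ^ 2 * (1 - τ) ^ 2 / (d + 1) = σ ^ 2 * ((1 - τ) ^ 2 / (d + 1)) := by ring
  rw [h7]
  nlinarith [mul_le_mul_of_nonneg_right hσ2 h0]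

/-- balanced signs -/
theorem exists_balanced (hodd : Odd d) : ∃ S : Finset (Fin (d + 1)),
    ∑ i, (if i ∈ S then (1 : ℝ) else -1) = 0 := by
  obtain ⟨k, hk⟩ := hodd
  obtain ⟨S, -, hS⟩ := Finset.exists_subset_card_eq
    (s := (Finset.univ : Finset (Fin (d + 1)))) (n := k + 1) (by simp; omega)
  refine ⟨S, ?_⟩
  have h1 : ∀ i : Fin (d + 1), (if i ∈ S then (1 : ℝ) else -1) = 2 * (if i ∈ S then 1 else 0) - 1 := by
    intro i; split_ifs <;> ring
  rw [Finset.sum_congr rfl fun i _ => h1 i, Finset.sum_sub_distrib, ← Finset.mul_sum]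
  simp only [Finset.sum_ite_mem, Finset.univ_inter, Finset.sum_const, Finset.card_univ,
    Fintype.card_fin, nsmul_eq_mul, mul_one]
  have hkR : (d : ℝ) = 2 * k + 1 := by exact_mod_cast hk
  rw [hS]
  push_cast
  rw [hkR]
  ring

/-- the circumradius: the radius of the smallest closed ball containing `Z` -/
def circumradius (Z : Set (E d)) : ℝ :=
  sInf {r : ℝ | 0 ≤ r ∧ ∃ c : E d, Z ⊆ Metric.closedBall c r}

theorem mem_sum_pair {ι V : Type*} [Fintype ι] [DecidableEq ι] [AddCommGroup V] (x : ι → V) {z : V}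
    (hz : z ∈ ∑ i, ({0, x i} : Set V)) : ∃ S : Finset ι, z = ∑ i ∈ S, x i := by
  rw [Set.mem_finsetSum] at hz
  obtain ⟨g, hg, rfl⟩ := hz
  classical
  refine ⟨Finset.univ.filter fun i => g i ≠ 0, ?_⟩
  rw [Finset.sum_filter]
  refine Finset.sum_congr rfl fun i hi => ?_
  have : g i = 0 ∨ g i = x i := by simpa using hg hi
  split_ifs with h
  · exact this.resolve_left h
  · push Not at h; exact h

theorem half_signed {ι V : Type*} [Fintype ι] [DecidableEq ι] [AddCommGroup V] [Module ℝ V]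
    (x : ι → V) (S : Finset ι) :
    ∑ i ∈ S, x i - (1 / 2 : ℝ) • ∑ i, x i = (1 / 2 : ℝ) • ∑ i, (if i ∈ S then (1 : ℝ) else -1) • x i := by
  have h1 : ∑ i ∈ S, x i = ∑ i, (if i ∈ S then (1 : ℝ) else 0) • x i := by
    simp only [ite_smul, one_smul, zero_smul, Finset.sum_ite_mem, Finset.univ_inter]
  rw [h1, Finset.smul_sum, Finset.smul_sum, ← Finset.sum_sub_distrib]
  refine Finset.sum_congr rfl fun i _ => ?_
  rw [smul_smul, ← sub_smul]
  congr 1
  split_ifs <;> norm_num

theorem circumradius_fam (hd : 3 ≤ d) (hodd : Odd d) {τ s : ℝ} (h0 : 0 ≤ τ)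
    (h1 : τ ≤ 1 / (4 * (d + 1))) (hs : 0 < s) :
    circumradius (parallelepiped (fam d τ s)) = s * √(d + 1) / 2 := by
  have hd0 : 0 < d := by omega
  refine le_antisymm ?_ ?_
  · refine csInf_le ⟨0, fun r hr => hr.1⟩ ⟨by positivity, (1 / 2 : ℝ) • ∑ i, fam d τ s i, ?_⟩
    rw [parallelepiped_eq_convexHull]
    refine convexHull_min ?_ (convex_closedBall _ _)
    intro z hz
    obtain ⟨S, rfl⟩ := mem_sum_pair _ hz
    rw [Metric.mem_closedBall, dist_eq_norm, half_signed, norm_smul]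
    have := norm_signed_le hd hodd h0 h1 hs S
    rw [Real.norm_eq_abs, abs_of_pos (by norm_num : (0 : ℝ) < 1 / 2)]
    linarith
  · refine le_csInf ?_ ?_
    · obtain ⟨r, hr⟩ := (isCompact_Icc.image (f := fun t : Fin (d + 1) → ℝ => ∑ i, t i • fam d τ s i)
        (by fun_prop)).isBounded.subset_closedBall 0
      exact ⟨max r 0, le_max_right _ _, 0, hr.trans (Metric.closedBall_subset_closedBall (le_max_left _ _))⟩
    · rintro r ⟨hr0, c, hc⟩
      obtain ⟨S, hS⟩ := exists_balanced hodd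
      have hmem : ∀ T : Finset (Fin (d + 1)), ∑ i ∈ T, fam d τ s i ∈ parallelepiped (fam d τ s) := by
        intro T
        rw [mem_parallelepiped_iff]
        refine ⟨fun i => if i ∈ T then 1 else 0, ⟨fun i => ?_, fun i => ?_⟩, ?_⟩
        · show (0 : ℝ) ≤ if i ∈ T then 1 else 0
          split_ifs <;> norm_num
        · show (if i ∈ T then (1 : ℝ) else 0) ≤ 1
          split_ifs <;> norm_num
        · simp only [ite_smul, one_smul, zero_smul, Finset.sum_ite_mem, Finset.univ_inter]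
      have e1 := hc (hmem S)
      have e2 := hc (hmem Sᶜ)
      rw [Metric.mem_closedBall] at e1 e2
      have e3 : dist (∑ i ∈ S, fam d τ s i) (∑ i ∈ Sᶜ, fam d τ s i) ≤ r + r := by
        refine (dist_triangle_right _ _ c).trans (add_le_add e1 e2)
      have e4 : ∑ i ∈ S, fam d τ s i - ∑ i ∈ Sᶜ, fam d τ s i =
          ∑ i, (if i ∈ S then (1 : ℝ) else -1) • fam d τ s i := by
        rw [← Finset.sum_add_sum_compl S (fun i => (if i ∈ S then (1 : ℝ) else -1) • fam d τ s i)]
        have c1 : ∑ i ∈ S, (if i ∈ S then (1 : ℝ) else -1) • fam d τ s i = ∑ i ∈ S, fam d τ s i :=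
          Finset.sum_congr rfl fun i hi => by rw [if_pos hi, one_smul]
        have c2 : ∑ i ∈ Sᶜ, (if i ∈ S then (1 : ℝ) else -1) • fam d τ s i =
            - ∑ i ∈ Sᶜ, fam d τ s i := by
          rw [← Finset.sum_neg_distrib]
          exact Finset.sum_congr rfl fun i hi => by
            rw [if_neg (Finset.mem_compl.1 hi), neg_smul, one_smul]
        rw [c1, c2, sub_eq_add_neg]
      rw [dist_eq_norm, e4] at e3
      have e5 := norm_sq_signed hd0 τ s (fun i => if i ∈ S then (1 : ℝ) else -1)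
        (fun i => by split_ifs <;> norm_num)
      simp only [hS] at e5
      have e6 : ‖∑ i, (if i ∈ S then (1 : ℝ) else -1) • fam d τ s i‖ = s * √(d + 1) := by
        have : (s * √((d : ℝ) + 1)) ^ 2 = ‖∑ i, (if i ∈ S then (1 : ℝ) else -1) • fam d τ s i‖ ^ 2 := by
          rw [e5, mul_pow, Real.sq_sqrt (by positivity)]
          ring
        exact ((sq_eq_sq₀ (by positivity) (norm_nonneg _)).1 this).symm
      rw [e6] at e3
      linarith

end Pool.Agent.T9h87.Zono
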