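import Pool.Agent.T9h87.Zono5

set_option autoImplicit false

open MeasureTheory Set Filter Topology
open scoped BigOperators Pointwise RealInnerProductSpace

noncomputable section

namespace Pool.Agent.T9h87.Zono

/-! ### zonotopes determine their generators -/

section widths

variable {V : Type*} [NormedAddCommGroup V] [InnerProductSpace ℝ V]
variable {ι κ : Type*} [Fintype ι] [Fintype κ]

theorem inner_diff_le (x : ι → V) (u : V) {z z' : V} (hz : z ∈ parallelepiped x)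
    (hz' : z' ∈ parallelepiped x) : ⟪z - z', u⟫ ≤ ∑ i, |⟪x i, u⟫| := by
  rw [mem_parallelepiped_iff] at hz hz'
  obtain ⟨t, ht, rfl⟩ := hz
  obtain ⟨t', ht', rfl⟩ := hz'
  rw [← Finset.sum_sub_distrib, sum_inner]
  refine Finset.sum_le_sum fun i _ => ?_
  rw [← sub_smul, inner_smul_left, conj_trivial]
  refine (le_abs_self _).trans ?_
  rw [abs_mul]
  have h1 := ht.1 i; have h2 := ht.2 i; have h3 := ht'.1 i; have h4 := ht'.2 i
  simp only [Pi.zero_apply, Pi.one_apply] at h1 h2 h3 h4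
  have h5 : |t i - t' i| ≤ 1 := abs_le.2 ⟨by linarith, by linarith⟩
  have := mul_le_mul_of_nonneg_right h5 (abs_nonneg ⟪x i, u⟫)
  linarith

theorem exists_inner_diff (x : ι → V) (u : V) : ∃ z ∈ parallelepiped x, ∃ z' ∈ parallelepiped x,
    ⟪z - z', u⟫ = ∑ i, |⟪x i, u⟫| := by
  classical
  have hm : ∀ p : ι → Prop, [DecidablePred p] → ∑ i, (if p i then (1 : ℝ) else 0) • x i ∈ parallelepiped x := by
    intro p _
    rw [mem_parallelepiped_iff]
    refine ⟨fun i => if p i then 1 else 0, ⟨fun i => ?_, fun i => ?_⟩, rfl⟩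
    · show (0 : ℝ) ≤ if p i then 1 else 0
      split_ifs <;> norm_num
    · show (if p i then (1 : ℝ) else 0) ≤ 1
      split_ifs <;> norm_num
  refine ⟨_, hm (fun i => 0 ≤ ⟪x i, u⟫), _, hm (fun i => ¬ 0 ≤ ⟪x i, u⟫), ?_⟩
  rw [← Finset.sum_sub_distrib, sum_inner]
  refine Finset.sum_congr rfl fun i _ => ?_
  rw [← sub_smul, inner_smul_left, conj_trivial]
  by_cases h : 0 ≤ ⟪x i, u⟫
  · rw [if_pos h, if_neg (not_not.2 h), abs_of_nonneg h]; ring
  · rw [if_neg h, if_pos h, abs_of_neg (not_le.1 h)]; ring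

theorem widths_le (x : ι → V) (r : κ → V) (v : V)
    (h : parallelepiped x ⊆ (fun z => v + z) '' parallelepiped r) (u : V) :
    ∑ i, |⟪x i, u⟫| ≤ ∑ j, |⟪r j, u⟫| := by
  obtain ⟨z, hz, z', hz', he⟩ := exists_inner_diff x u
  obtain ⟨w, hw, rfl⟩ := h hz
  obtain ⟨w', hw', rfl⟩ := h hz'
  rw [← he]
  have : v + w - (v + w') = w - w' := by abel
  simp only [this]
  exact inner_diff_le r u hw hw'

theorem widths_eq (x : ι → V) (r : κ → V) (v : V)
    (h : parallelepiped x = (fun z => v + z) '' parallelepiped r) (u : V) :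
    ∑ i, |⟪x i, u⟫| = ∑ j, |⟪r j, u⟫| := by
  refine le_antisymm (widths_le x r v h.le u) (widths_le r x (-v) ?_ u)
  intro z hz
  refine ⟨v + z, ?_, by simp⟩
  rw [h]
  exact ⟨z, hz, rfl⟩

theorem abs_add_abs_sub {a b : ℝ} (h : |b| ≤ |a|) : |a + b| + |a - b| = 2 * |a| := by
  rcases abs_cases a with ⟨h1, h2⟩ | ⟨h1, h2⟩ <;> rcases abs_cases b with ⟨h3, h4⟩ | ⟨h3, h4⟩ <;>
    rcases abs_cases (a + b) with ⟨h5, h6⟩ | ⟨h5, h6⟩ <;>
    rcases abs_cases (a - b) with ⟨h7, h8⟩ | ⟨h7, h8⟩ <;> linarith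

/-- the second difference of `u ↦ |⟪v, u⟫|` -/
def dd (u₀ w : V) (t : ℝ) (v : V) : ℝ :=
  |⟪v, u₀ + t • w⟫| + |⟪v, u₀ - t • w⟫| - 2 * |⟪v, u₀⟫|

theorem exists_generic [FiniteDimensional ℝ V] (w : V) (W : Set V) (hW : W.Finite)
    (hw : ∀ v ∈ W, v ∉ Submodule.span ℝ {w}) :
    ∃ u₀ : V, ⟪w, u₀⟫ = 0 ∧ ∀ v ∈ W, ⟪v, u₀⟫ ≠ 0 := by
  classical
  have := hW.to_subtype
  set H : Submodule ℝ V := (Submodule.span ℝ {w})ᗮ with hH
  let K : W → Subspace ℝ H := fun v => LinearMap.ker ((innerSL ℝ (v : V)).toLinearMap ∘ₗ H.subtype)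
  have hK : ∀ v : W, K v ≠ ⊤ := by
    intro v hv
    apply hw v v.2
    have h1 : (v : V) ∈ Hᗮ := by
      rw [Submodule.mem_orthogonal']
      intro u hu
      have h2 : (⟨u, hu⟩ : H) ∈ K v := by rw [hv]; trivial
      exact h2
    rwa [hH, Submodule.orthogonal_orthogonal] at h1
  have hne : ⋃ v, (K v : Set H) ≠ univ := by
    intro h
    obtain ⟨v, hv⟩ := Subspace.exists_eq_top_of_iUnion_eq_univ h
    exact hK v hv
  obtain ⟨u, hu⟩ := (Set.ne_univ_iff_exists_notMem _).1 hne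
  refine ⟨u, ?_, fun v hv h0 => ?_⟩
  · exact Submodule.mem_orthogonal' _ _ |>.1 u.2 w (Submodule.mem_span_singleton_self w) |> fun h => by
      rw [real_inner_comm]; exact h
  · apply hu
    rw [mem_iUnion]
    exact ⟨⟨v, hv⟩, h0⟩

/-- If all the sums of absolute values agree, then the norms of the generators of the first family
occur among the norms of the second family. -/
theorem exists_norm_eq [FiniteDimensional ℝ V] (x : ι → V) (r : κ → V)
    (h : ∀ u : V, ∑ i, |⟪x i, u⟫| = ∑ j, |⟪r j, u⟫|) (i : ι)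
    (hi0 : x i ≠ 0)
    (hx : ∀ k, k ≠ i → x k ∉ Submodule.span ℝ {x i})
    (hr : ∀ j k, r j ∈ Submodule.span ℝ {x i} → r k ∈ Submodule.span ℝ {x i} → j = k) :
    ∃ j, ‖r j‖ = ‖x i‖ := by
  classical
  set w := x i with hw
  set W : Set V := {v | v ∈ range x ∪ range r ∧ v ∉ Submodule.span ℝ {w}} with hWdef
  have hWfin : W.Finite := ((finite_range x).union (finite_range r)).subset fun v hv => hv.1
  obtain ⟨u₀, hu₀, hu⟩ := exists_generic w W hWfin fun v hv => hv.2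
  -- a small `t`
  have hev : ∀ᶠ t : ℝ in 𝓝[>] 0, ∀ v ∈ W, |t * ⟪v, w⟫| ≤ |⟪v, u₀⟫| := by
    rw [Filter.eventually_all_finite hWfin]
    intro v hv
    have h1 : Tendsto (fun t : ℝ => |t * ⟪v, w⟫|) (𝓝[>] 0) (𝓝 |0 * ⟪v, w⟫|) :=
      ((continuous_id.mul continuous_const).abs.tendsto 0).mono_left nhdsWithin_le_nhds
    rw [zero_mul, abs_zero] at h1
    have h2 : 0 < |⟪v, u₀⟫| := abs_pos.2 (hu v hv)
    exact (h1.eventually (gt_mem_nhds h2)).mono fun t ht => ht.le
  obtain ⟨t, ht, ht0⟩ := (hev.and self_mem_nhdsWithin).exists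
  have ht0' : (0 : ℝ) < t := ht0
  have hdW : ∀ v ∈ W, dd u₀ w t v = 0 := by
    intro v hv
    unfold dd
    rw [inner_add_right, inner_sub_right, inner_smul_right, abs_add_abs_sub (ht v hv), sub_self]
  have hdspan : ∀ v, v ∈ Submodule.span ℝ {w} → dd u₀ w t v = 2 * t * (‖v‖ * ‖w‖) := by
    intro v hv
    obtain ⟨c, rfl⟩ := Submodule.mem_span_singleton.1 hv
    unfold dd
    have e1 : ⟪c • w, u₀⟫ = 0 := by rw [inner_smul_left, hu₀, mul_zero]
    rw [inner_add_right, inner_sub_right, inner_smul_right, e1, inner_smul_left, conj_trivial,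
      real_inner_self_eq_norm_sq, zero_add, zero_sub, abs_neg, abs_zero, norm_smul, Real.norm_eq_abs,
      abs_mul, abs_mul, abs_of_pos ht0', abs_of_nonneg (sq_nonneg ‖w‖)]
    ring
  have hsum : ∑ k, dd u₀ w t (x k) = ∑ k, dd u₀ w t (r k) := by
    unfold dd
    simp only [Finset.sum_sub_distrib, Finset.sum_add_distrib, ← Finset.mul_sum]
    rw [h, h, h]
  have hleft : ∑ k, dd u₀ w t (x k) = 2 * t * (‖w‖ * ‖w‖) := by
    rw [Finset.sum_eq_single i]
    · exact hdspan _ (Submodule.mem_span_singleton_self _)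
    · intro k _ hk
      exact hdW _ ⟨Or.inl ⟨k, rfl⟩, hx k hk⟩
    · intro hcon; exact absurd (Finset.mem_univ i) hcon
  have hwn : 0 < ‖w‖ := norm_pos_iff.2 hi0
  -- some `r j` is in the span
  obtain ⟨j, hj⟩ : ∃ j, r j ∈ Submodule.span ℝ {w} := by
    by_contra hcon
    push Not at hcon
    have : ∑ k, dd u₀ w t (r k) = 0 :=
      Finset.sum_eq_zero fun k _ => hdW _ ⟨Or.inr ⟨k, rfl⟩, hcon k⟩
    rw [this, hleft] at hsum
    have : 0 < 2 * t * (‖w‖ * ‖w‖) := by positivity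
    linarith
  refine ⟨j, ?_⟩
  have hright : ∑ k, dd u₀ w t (r k) = 2 * t * (‖r j‖ * ‖w‖) := by
    rw [Finset.sum_eq_single j]
    · exact hdspan _ hj
    · intro k _ hk
      refine hdW _ ⟨Or.inr ⟨k, rfl⟩, fun hk' => hk (hr k j hk' hj)⟩
    · intro hcon; exact absurd (Finset.mem_univ j) hcon
  rw [hleft, hright] at hsum
  have h2t : (0 : ℝ) < 2 * t := by positivity
  have := mul_left_cancel₀ h2t.ne' hsum
  exact (mul_right_cancel₀ hwn.ne' this).symm

end widths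

end Pool.Agent.T9h87.Zono
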